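import Pool.Agent.Q207.UrnCube

/-!
Coexistence of several types in the competing urn scheme on hypercubes and tori, in continuous
time.
-/

set_option autoImplicit false

namespace Pool.Agent.Results.MP_d3f74f_pr.CubeCoexistence

open MeasureTheory
open Pool.Agent.TH996.Urn Pool.Agent.Q207.UrnCT

/-- **Theorem.** For every `K ≥ 4` types there is a nonzero initial configuration from which, with
positive probability, at least two types are present at all times: on every hypercube `Q_n` with
`n ≥ 4`, and on every torus of dimension `d ≥ 2` and side `4`. -/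
theorem result (K : ℕ) (hK : 4 ≤ K) :
    (∀ n : ℕ, 4 ≤ n → Coexistence (cube n) K) ∧
    (∀ d : ℕ, 2 ≤ d → Coexistence (torus d 4) K) := by
  obtain ⟨k, rfl⟩ : ∃ k, K = k + 4 := ⟨K - 4, by omega⟩
  constructor
  · intro n hn
    obtain ⟨m, rfl⟩ : ∃ m, n = m + 4 := ⟨n - 4, by omega⟩
    obtain ⟨S, χ, φ, μ, h⟩ := cube_sbc m k
    exact coexistence_of_not_inClass _ (sbc_not_inClass h)
  · intro d hd
    obtain ⟨m, rfl⟩ : ∃ m, d = m + 2 := ⟨d - 2, by omega⟩
    obtain ⟨S, χ, φ, μ, h⟩ := torus_sbc m k
    exact coexistence_of_not_inClass _ (sbc_not_inClass h)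

end Pool.Agent.Results.MP_d3f74f_pr.CubeCoexistence
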